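import Pool.Agent.N762.FP.Root2

/-!
MP_b525bf_ag: resolution of singularities, in all dimensions, of the projective varieties over a
perfect field `k` of characteristic `p`, and of their open subsets, whose function fields are
constructed from function fields of surfaces by products, by families of varieties of bounded
degree, by adjoining zeros of polynomials of degree less than `p` with controlled discriminants, and
by radicals. The bounds for `p` do not depend on the dimension of the variety.

The theorem is about the pairs `(K, P)` of a field `K` and a set `P` of elements of `K` which are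
obtained from the pairs `(E, E)`, where `E` is the function field of a surface, by finitely many of
the operations of `IsAdmissible`, in any order. A projective variety `X` with function field `K` has
a resolution, and so have its open subsets, if it has a finite morphism to a projective space whose
homogeneous coordinates are in `P` (for example, if the homogeneous coordinates of `X` are in `P`).
In the following examples, `X` can be the given variety, or any variety which is finite and
birational over it, or, more generally, a variety with the same function field which is finite over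
a product of the surface and of projective spaces whose coordinates are in `P`. (By the theorems of
Cossart, Piltant, Jannsen and Saito the pairs `(E, E)`, where `E` is the function field of a
threefold, can also be used, with the operation `models`.)

* Let `S` be a smooth projective surface over `k` and `p ≥ 5`. The fibre products over `S` of any
  number of Weierstrass fibrations `y ^ 2 = x ^ 3 + a * x + b`, where `a` and `b` are rational
  functions on `S`: the coordinate `x` is a family of dimension one and degree one, the polynomials
  in `x` of degree at most `3 < p` over the function field `E` of `S` can be added to `P`, and `y`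
  is a radical.

* The fibre products over `S` of any number of varieties `Y i ⊆ S × P ^ (N i)` whose fibres over
  `S` have dimension `r i` and degree at most `δ i`, where `(δ i) ^ 2 ^ (r i) < p` for each `i`, and
  the products over `k` of such fibre products for different surfaces; the coverings of these
  varieties which are given by radicals, with exponents prime to `p`, of products of forms of
  bounded degree on the factors.

* The cubic coverings `z ^ 3 + a * z + b = 0` (`p ≥ 5`) of a variety with function field `L`, where
  `a`, `b` and `4 * a ^ 3 + 27 * b ^ 2` are in `P`: then `z` and `3 * z ^ 2 + a` can be added to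
  `P`.

* The Legendre fibrations `y ^ 2 = x * (x - a) * (x - b)` (`p ≠ 2`) over a variety with function
  field `L`, where `a`, `b` and `a - b` are in `P`. The coverings `z ^ p - z = a * x ^ m`, where `a`
  is in `P`, `x` is transcendental over `L` and `p ∤ m`.

* The quadric bundles `∑ q i j * x i * x j = 0` (`p ≠ 2`) over a variety with function field `L`,
  where the leading principal minors of the symmetric matrix `q` over `L` are in `P` (after a
  diagonalization `∑ a i * x' i ^ 2 = 0`, where the `a i` are in `P`, the `a i * x' i ^ 2` are the
  coordinates of a hyperplane over `k`, and the `x' i` are radicals).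

* The coverings `z ^ p = f (a ^ p, b ^ p, x 1, ..., x n)`, where `a`, `b` are rational functions on
  the surface, and `f` is a polynomial of degree at most `δ` in `x 1, ..., x n`, with
  `δ ^ 2 ^ n < p`.

The proof: an element of `P` is a boundary function on a model if its zeros and poles are in the
boundary. For each pair of the class there are smooth projective models with normal crossings
boundary on which given finitely many elements of `P` are boundary functions.

(1) Products: the product of two models.

(2) Adjoining one element `z`: the members of `Φ` become boundary functions on a modification of the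
product of a model of `L` with the projective line; this is shown by induction on the degree, using
the derivatives (`N98.p1`). If `z` is a zero of a member of `Φ`, then the zeros of its minimal
polynomial are a component of the boundary, and we restrict to this component (`RC.cut'`).

(3) Families: let `m i = p ^ ε i * n' i` with `p ∤ n' i`, `z i = y i ^ n' i`. The equations of the
`t i = z i ^ p ^ ε i` of degree `< p` show that the field `E (z)` is separable over
`E (z (j 1), ..., z (j r))`, where the `z (j c)` are a transcendence basis of greatest exponents. A
general linear projection over `F` of the variety with the generic point `t` has coordinates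
`u = ∑ c i * t i` and the `t (j c)`, and the `t i` are rational functions of degree at most `δ` in
them; hence the `z i` are in the field generated over `E` by `u` and the `z (j c)` (`RC2.proj`). For
these coordinates the step (2) is repeated; the discriminants and resultants of twisted polynomials
of degree `< p` over `E` are again of this form. This is done over `L` with polynomials over `E`
(`FP.main2`); the equations over `E` remain valid over `L`, since the field `E (y)` is free from `L`
over `E` (`FP.rel_lift`).

(4) Radical extensions with exponents prime to `p` are toroidal over such a model, and a root of a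
boundary function is a boundary function (`RC2.isBr_of_pow`).

helper762, helper98; built on the library of helper98 and on the library of the starting files
(helpers 558, 214, 973, 418, 968 and others). This theorem contains the former hand-in
`RadicalCoversBoundedDegree` (one family, homogeneous coordinates in `P`) on this problem.
-/

set_option autoImplicit false

open AlgebraicGeometry CategoryTheory Polynomial Pool.Agent.W558 Pool.Agent.N98

namespace Pool.Agent.Results.MP_b525bf_ag.AdmissibleTowers

/-- The values at the point `x` of the polynomials over `F` of total degree at most `t`. -/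
noncomputable def values (F : Type) {K : Type} [Field F] [Field K] [Algebra F K] {N : ℕ}
    (x : Fin N → K) (t : ℕ) : Submodule F K :=
  (MvPolynomial.restrictTotalDegree (Fin N) F t).map
    (MvPolynomial.aeval x : MvPolynomial (Fin N) F →ₐ[F] K).toLinearMap

/-- The variety in the affine space over `F` with the generic point `x` (the zeros of the
polynomials over `F` which vanish at `x`), whose function field is `F (x)`, has dimension `r` and
degree at most `δ`: its Hilbert function, the dimension over `F` of the space of the polynomial
functions of degree at most `t` on the variety, is at most `δ * t ^ r / r! + O (t ^ (r - 1))`. -/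
def DegreeAtMost (F : Type) {K : Type} [Field F] [Field K] [Algebra F K] {N : ℕ}
    (x : Fin N → K) (r δ : ℕ) : Prop :=
  Algebra.trdeg F (IntermediateField.adjoin F (Set.range x)) = r ∧
    ∃ C : ℕ, ∀ t : ℕ, r.factorial * Module.finrank F (values F x t) ≤ δ * (t + C) ^ r

/-- The smallest class of pairs `(K, P)`, where `K` is an extension of the field `k` and `P` is a
set of elements of `K`, with the following properties. -/
inductive IsAdmissible (p : ℕ) (k : Type) [Field k] :
    (K : Type) → [Field K] → [Algebra k K] → Set K → Prop
  /-- If `E` is the function field of a smooth projective surface, then `(E, E)` is in the class.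
  -/
  | surface (E : Type) [Field E] [Algebra k E] (h2 : Algebra.trdeg k E = 2)
      (hE : HasModel k E) : IsAdmissible p k E Set.univ
  /-- If each finite family of nonzero elements of `P` has its zeros and poles in a simple normal
  crossings divisor on some smooth projective variety with function field `E`, then `(E, P)` is in
  the class. (Examples: `E = k`; function fields of curves, with `P = E`.) -/
  | models (E : Type) [Field E] [Algebra k E] (P : Set E)
      (hE : ∀ (m : ℕ) (g : Fin m → E), (∀ b, g b ∈ P) → (∀ b, g b ≠ 0) →
        ∃ (N L : ℕ) (H : Fin (N + 1) → E) (x : Fin (N + 1) → Fin L → E)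
          (Γ : Fin m → Fin L → ℤ), IsLogModel (k := k) g H x Γ) :
      IsAdmissible p k E P
  /-- **Products.** If `(K₁, P₁)` and `(K₂, P₂)` are in the class, and `K` is the field of fractions
  of the image of `K₁ ⊗ K₂`, where the homomorphism from `K₁ ⊗ K₂` to `K` is injective (if `k` is
  algebraically closed, `K` is the function field of the product of varieties with the function
  fields `K₁` and `K₂`), then `(K, P₁ ∪ P₂)` is in the class. -/
  | product (K₁ K₂ K : Type) [Field K₁] [Field K₂] [Field K] [Algebra k K₁] [Algebra k K₂]
      [Algebra k K] (P₁ : Set K₁) (P₂ : Set K₂) (h₁ : IsAdmissible p k K₁ P₁)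
      (h₂ : IsAdmissible p k K₂ P₂) (ι₁ : K₁ →ₐ[k] K) (ι₂ : K₂ →ₐ[k] K)
      (hι : Function.Injective (Algebra.TensorProduct.productMap ι₁ ι₂))
      (hK : IntermediateField.adjoin k (Set.range ι₁ ∪ Set.range ι₂) = ⊤) :
      IsAdmissible p k K (ι₁ '' P₁ ∪ ι₂ '' P₂)
  /-- **Families of bounded degree.** Let `(L, P)` be in the class, and let `E` be a field contained
  in `P`. Let `F` be a field of `p ^ e`-th powers of elements of `E` over which `E` is algebraic,
  for example `E ^ (p ^ e)` (or `E` if `e = 0`). Let `K` be generated over `L` by
  `y 1, ..., y N` and have transcendence degree `r` over `L`, and let the exponents `m i` be not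
  divisible by `p ^ (e + 1)` and such that `(y 1 ^ m 1, ..., y N ^ m N)` is the generic point of a
  variety over `F` of dimension `r` and degree at most `δ`. (So `K` is the function field of a
  component of the product over `E` of a variety with the function field `L` and of a variety over
  `E` which is a component of the inverse image of a variety of dimension `r` and degree at most `δ`
  over `F`.) Suppose that `(s * δ) ^ 2 ^ r < p` and `F` is infinite, or that
  `(max s δ) ^ 2 ^ (N - 1) < p`. Then the `y i` and the polynomials over `F` of degree at most `s`
  in the `y i ^ m i` can be added to `P`. -/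
  | family (L K F E : Type) [Field L] [Field K] [Field F] [Field E] [Algebra k L] [Algebra k K]
      [Algebra L K] [IsScalarTower k L K] [Algebra E L] [Algebra E K] [IsScalarTower E L K]
      [Algebra F E] [Algebra F K] [IsScalarTower F E K] [Algebra.IsAlgebraic F E]
      (P : Set L) (h : IsAdmissible p k L P) (hE : ∀ a : E, algebraMap E L a ∈ P)
      (e : ℕ) (hF : ∀ a : F, ∃ b : E, b ^ p ^ e = algebraMap F E a)
      (N r δ s : ℕ) (y : Fin N → K) (hy : IntermediateField.adjoin L (Set.range y) = ⊤)
      (hr : Algebra.trdeg L K = r) (m : Fin N → ℕ) (hm : ∀ i, ¬ p ^ (e + 1) ∣ m i)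
      (hδ : DegreeAtMost F (fun i => y i ^ m i) r δ) (hs : 1 ≤ s)
      (hp : (Infinite F ∧ (s * δ) ^ 2 ^ r < p) ∨ max s δ ^ 2 ^ (N - 1) < p) :
      IsAdmissible p k K (algebraMap L K '' P ∪ (Set.range y ∪
        {z | ∃ G : MvPolynomial (Fin N) F,
          G.totalDegree ≤ s ∧ z = MvPolynomial.aeval (fun i => y i ^ m i) G}))
  /-- **Adjoining one element.** Let `(L, P)` be in the class, and let `Φ` be a set of nonzero
  polynomials over `L` of degree at most `Δ < p`, which contains `X`, is closed under derivatives,
  whose constant members are in `P`, and such that for `f`, `g` in `Φ`, where `f` is not constant,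
  there is a nonzero polynomial `Q` of degree at most `Δ` (for example the characteristic
  polynomial of `g` modulo `f`) whose nonzero coefficients are in `P`, such that `f` divides
  `Q (g)`. Let `K = L (z)`, where `z` is transcendental over `L` or a zero of a member of `Φ`. Then
  the values at `z` of the members of `Φ` can be added to `P`. -/
  | element (L K : Type) [Field L] [Field K] [Algebra k L] [Algebra k K] [Algebra L K]
      [IsScalarTower k L K] (P : Set L) (h : IsAdmissible p k L P) (Δ : ℕ) (hΔ : Δ < p)
      (Φ : Set L[X]) (h0 : ∀ f ∈ Φ, f ≠ 0) (hdeg : ∀ f ∈ Φ, f.natDegree ≤ Δ) (hX : X ∈ Φ)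
      (hder : ∀ f ∈ Φ, 1 ≤ f.natDegree → derivative f ∈ Φ)
      (hconst : ∀ f ∈ Φ, f.natDegree = 0 → f.coeff 0 ∈ P)
      (hQ : ∀ f ∈ Φ, ∀ g ∈ Φ, 1 ≤ f.natDegree → ∃ Q : L[X], Q ≠ 0 ∧ Q.natDegree ≤ Δ ∧
        f ∣ Q.comp g ∧ ∀ n, Q.coeff n ≠ 0 → Q.coeff n ∈ P)
      (z : K) (hz : IntermediateField.adjoin L {z} = ⊤)
      (hz' : Transcendental L z ∨ ∃ f ∈ Φ, aeval z f = 0) :
      IsAdmissible p k K (algebraMap L K '' P ∪ {y | ∃ f ∈ Φ, y = aeval z f})
  /-- **Radicals.** Let `(L, P)` be in the class, and let `K` be generated over `L` by elements
  `w j ≠ 0` such that `(w j) ^ (n j)` is in `P`, for an exponent `n j` prime to `p`. Then the `w j`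
  can be added to `P`. -/
  | radical (L K : Type) [Field L] [Field K] [Algebra k L] [Algebra k K] [Algebra L K]
      [IsScalarTower k L K] (P : Set L) (h : IsAdmissible p k L P) (g : ℕ) (w : Fin g → K)
      (n : Fin g → ℕ) (hw0 : ∀ j, w j ≠ 0) (hn : ∀ j, ¬ p ∣ n j)
      (hw : ∀ j, ∃ z ∈ P, w j ^ n j = algebraMap L K z)
      (hK : IntermediateField.adjoin L (Set.range w) = ⊤) :
      IsAdmissible p k K (algebraMap L K '' P ∪ Set.range w)
  /-- **Products and roots.** If `(K, P)` is in the class, and each nonzero element of `Q` has a
  power which is a product of a constant and of (positive or negative) powers of elements of `P`,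
  then `(K, Q)` is in the class. -/
  | saturation (K : Type) [Field K] [Algebra k K] (P Q : Set K) (h : IsAdmissible p k K P)
      (hQ : ∀ z ∈ Q, z ≠ 0 → ∃ n : ℕ, n ≠ 0 ∧ ∃ (c : k) (l : ℕ) (a : Fin l → K) (e : Fin l → ℤ),
        (∀ i, a i ∈ P) ∧ z ^ n = algebraMap k K c * ∏ i, a i ^ e i) :
      IsAdmissible p k K Q

/-- Finite families of elements of `P` are boundary functions on log smooth models. -/
theorem mod_of_admissible (p : ℕ) [Fact p.Prime] (k : Type) [Field k] [PerfectField k]
    [CharP k p] (K : Type) [Field K] [Algebra k K] (P : Set K) (h : IsAdmissible p k K P) :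
    Pool.Agent.N762.FP.Mod k P := by
  induction h with
  | surface E h2 hE =>
    exact Pool.Agent.N762.FP.mod_base (Pool.Agent.W418.LCI.hasLM_of_surface k E h2 hE)
  | models E P hE => exact Pool.Agent.N762.FP.mod_models hE
  | product K₁ K₂ K P₁ P₂ h₁ h₂ ι₁ ι₂ hι hK ih₁ ih₂ =>
    exact Pool.Agent.N762.FP.mod_prod ι₁ ι₂ hι hK ih₁ ih₂
  | family L K F E P h hE e hF N r δ s y hy hr m hm hδ hs hp ih =>
    obtain ⟨htr, C, hC⟩ := hδ
    exact Pool.Agent.N762.FP.mod_fam p ih hE y m e hm hF hy r δ C htr hr hC s hs
      (hp.imp (fun h => ⟨h.1, factorial_ne_zero_of_lt p (Fact.out : p.Prime) h.2⟩)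
        (fun h => factorial_ne_zero_of_lt p (Fact.out : p.Prime) h))
  | element L K P h Δ hΔ Φ h0 hdeg hX hder hconst hQ z hz hz' ih =>
    exact Pool.Agent.N762.FP.mod_root ih Δ (factorial_ne_zero_of_lt p (Fact.out : p.Prime) hΔ) Φ
      h0 hdeg hX hder hconst hQ z hz hz'
  | radical L K P h g w n hw0 hn hw hK ih =>
    exact Pool.Agent.N762.FP.mod_rad p ih w hw0 n hn hw hK
  | saturation K P Q h hQ ih => exact Pool.Agent.N762.FP.mod_sat ih hQ

/-- The homomorphism `ξ` is a homogeneous generic point of the projective variety `Proj S` over
`k`, where `S = ⨁ 𝒜 t`, and `K` is the function field: `ξ` is injective on the homogeneous parts of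
`S`, and the elements of `K` are the quotients of the values at `ξ` of homogeneous elements of `S`
of the same degree. -/
structure IsGenericPoint {k S K : Type} [Field k] [CommRing S] [Algebra k S]
    (𝒜 : ℕ → Submodule k S) [Field K] [Algebra k K] (ξ : S →ₐ[k] K) : Prop where
  injective : ∀ n, ∀ s ∈ 𝒜 n, ξ s = 0 → s = 0
  fractions : ∀ z : K, ∃ n, ∃ s ∈ 𝒜 n, ∃ t ∈ 𝒜 n, ξ t ≠ 0 ∧ z = ξ s / ξ t

/-- Let `k` be a perfect field of characteristic `p`, and let `(K, P)` be a pair of an extension of
`k` and a set of its elements which is obtained from function fields of surfaces by the operations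
of `IsAdmissible`. Let `X = Proj S` be a projective variety over `k` with function field `K`, where
`S` is a graded domain generated over `k` by its finite dimensional part `𝒜 1` of degree one. Let
`b 1, ..., b l` be elements of `𝒜 1` without common zeros on `X` (all forms of some degree `d + 1`
are in the ideal generated by them) whose values `ξ (b i)` at the homogeneous generic point of `X`
are in `P`. (In other words: `X` has a finite morphism to a projective space whose homogeneous
coordinates are in `P`; for example, the homogeneous coordinates of `X` are in `P`.) Then each
nonempty open subscheme `U` of `X` has a resolution of singularities. -/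
theorem result (p : ℕ) [Fact p.Prime] (k : Type) [Field k] [PerfectField k] [CharP k p]
    (K : Type) [Field K] [Algebra k K] (P : Set K) (hP : IsAdmissible p k K P)
    (S : Type) [CommRing S] [IsDomain S] [Algebra k S] (𝒜 : ℕ → Submodule k S) [GradedAlgebra 𝒜]
    (hS : Algebra.adjoin k (𝒜 1 : Set S) = ⊤) (hS1 : 𝒜 1 ≠ ⊥) (hfg : (𝒜 1).FG)
    (ξ : S →ₐ[k] K) (hξ : IsGenericPoint 𝒜 ξ)
    (l : ℕ) (b : Fin l → S) (hb : ∀ i, b i ∈ 𝒜 1)
    (hb' : ∃ d : ℕ, ∀ s ∈ 𝒜 (d + 1), s ∈ Ideal.span (Set.range b)) (hbP : ∀ i, ξ (b i) ∈ P)
    (U : (Proj 𝒜).Opens) (hU : (U : Set (Proj 𝒜)).Nonempty) :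
    IsResolvableVariety (k := k) (X := U.toScheme)
      (U.ι ≫ Proj.toSpecZero 𝒜 ≫ Spec.map (CommRingCat.ofHom (algebraMap k (𝒜 0)))) := by
  classical
  obtain ⟨d, hd⟩ := hb'
  obtain ⟨T, I, hT, hI, M, hFr, hM⟩ := mod_of_admissible p k K P hP
    {i : Fin l // ξ (b i) ≠ 0} (fun i => ξ (b i.1)) (fun i => hbP i.1) (fun i => i.2)
  exact Pool.Agent.N762.FP.isResolvable_of_forms 𝒜 hS hfg ξ hξ.injective hξ.fractions b hb hd M hFr
    (fun i hi => hM ⟨i, hi⟩) hS1 U hU

end Pool.Agent.Results.MP_b525bf_ag.AdmissibleTowers
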