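import Pool.Agent.N102.FL.Final
import Pool.Agent.N40.FL.Piv
import Pool.Agent.N40.FL.Ech
import Pool.Agent.N40.FL.Fam
import Pool.Agent.N40.FL.Dim
import Pool.Agent.N608.FL.Form
import Pool.Agent.N954.FL.Lift
import Pool.Agent.N56.FL.Span
import Pool.Agent.N531.FL.Sat
import Pool.Agent.N456.FL.Rank

/-!
MP_b525bf_ag: resolution of singularities, in all dimensions and all characteristics `p > 0`, of
varieties given by linear equations between powers of arbitrary exponents `p ^ e` of
nondegenerate functions, and of their covers.

The function field `K` contains elements `z 1, ..., z s` with arbitrary linear relations over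
the perfect field `k` between `1` and the powers `z t ^ (p ^ e t)` (`e t ≥ 0` arbitrary), linearly
disjoint function fields `E 1, ..., E m` of surfaces (`m = 0` is allowed), and elements
`x 1, ..., x n` with equations `G i (u, z, x) = 0` (`u a` products of functions of the `E i`) which
are schön in the directions of the `x j`, relative to the torus of the variables of `(u, z)`.
There are no other relations (`dimension`).

Example: the irreducible components, dominating the `S i`, of the subschemes
`∑ j, c i j * (v j * h j (x^(j))) ^ (q j) = b i`, `i = 1, ..., r`, of `S 1 × ... × S m × 𝔸 ^ N`, where
the `S i` are affine surfaces, `(c i j)` is an arbitrary matrix over `k`, the `q j` are arbitrary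
powers of `p`, the `v j` are products of functions on the `S i`, and the `h j` are forms of degrees
prime to `p` in disjoint sets of variables, whose face forms define smooth hypersurfaces in the
torus; for instance all hypersurfaces `∑ j, c j * (x j) ^ (a j) = b` with arbitrary exponents.

The proof: (1) the system of the powers is saturated: finitely many `p ^ f`-th roots of linear
combinations of the `z t ^ (p ^ e t)`, `e t ≥ f`, which are elements of `K`, are added (`S_SAT`);
(2) for all weights and all common zeros of the initial forms of the `p ^ f`-th roots of the linear
relations of level `f` (for all `f`) the gradients of these initial forms have as many independent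
values as there are independent linear relations: leading terms of the relations can be lifted to
relations of the same level, since the system is saturated (`S_LIFT`, `S_RANK`); so the
enlarged system is schön; (3) together with the `G i` it is a schön system over the product of the
surfaces (`comb`), and the library of the starting file SchonSurfaceTwisted (helper214 and others)
produces smooth models.

helper102 (statement, proof, assembly), helpers 40, 56, 456, 531, 608, 954 (the parts `S_PIV`,
`S_ECH`, `S_FAM`, `S_DIM`; `S_SPAN`; `S_RANK`; `S_SAT`; `S_FORM`; `S_LIFT`); the idea of ordering
the roots by levels is also used in MP_19ffc6_ag.PowerMapPreimages (helper762).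
-/

set_option autoImplicit false

universe u

open AlgebraicGeometry CategoryTheory Pool.Agent.N102.FL Pool.Agent.TH214.SD Pool.Agent.W558

namespace Pool.Agent.Results.MP_b525bf_ag.FrobeniusLevels

/-- Let `k` be a perfect field of characteristic `p` and `K` a field extension of `k`. Let
`z 1, ..., z s` and `x 1, ..., x n` be nonzero elements of `K`, and `e 1, ..., e s ≥ 0`, such that the
`x j` satisfy equations which are schön of codimension at least `c` in the directions of the
`x j`, relative to the torus of the variables of `(u, z)`, where the `u a` are products of
elements of linearly disjoint function fields `E 1, ..., E m` of surfaces over `k`, and the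
transcendence degree of `K` over the compositum of the `E i` is at least `(D - 1) + (n - c)`,
`D` the dimension of the space over `k` generated by `1` and the `z t ^ (p ^ e t)`
(`IsLeveledSystem`). Let `K` be generated by the `E i`, the `z t`, the `x j` and elements `w j` such
that the `w j ^ p - w j` are integral linear combinations of functions `f i ∈ E i` and of
strongly nondegenerate Laurent polynomials in `(u, z), x`, or the `w j ^ p` are linear combinations
over `k` of products of functions of the `E i` and of such Laurent polynomials
(`IsGeneratedBy`). Let `A` be a finitely generated `k`-algebra with the fraction field `K` which is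
integral over the subalgebra generated by finitely many elements each of which is a product of
elements of the `E i` and of powers of the `z t` and the `x j`. Then the variety `Spec A` has a
resolution of singularities. -/
theorem result (p : ℕ) [Fact p.Prime] (k K : Type u) [Field k] [PerfectField k] [CharP k p]
    [Field K] [Algebra k K] (m h s n q r o a c : ℕ) (E : Fin m → IntermediateField k K)
    (u : Fin h → K) (e : Fin s → ℕ) (z : Fin s → K) (x : Fin n → K)
    (G : Fin q → (Fin (h + s) ⊕ Fin n → ℤ) →₀ k) (hB : IsLeveledSystem E p c u e z x G)
    (f : ∀ i, E i) (g : Fin o → ∀ i, E i) (F : Fin a → (Fin (h + s) ⊕ Fin n → ℤ) →₀ k)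
    (w : Fin r → K) (hC : IsGeneratedBy E p u z x G f g F w)
    (A : Type u) [CommRing A] [IsDomain A] [Algebra k A] [Algebra.FiniteType k A] [Algebra A K]
    [IsScalarTower k A K] [IsFractionRing A K] (S : Finset A)
    (hS : ∀ b ∈ S, IsProduct E (Fin.append z x) (algebraMap A K b))
    (hA : ∀ b : A, IsIntegral (Algebra.adjoin k (S : Set A)) b) :
    IsResolvableVariety (X := Spec (CommRingCat.of A))
      (Spec.map (CommRingCat.ofHom (algebraMap k A))) := by
  have hrank : S_RANK.{u} := Pool.Agent.N456.FL.t_rank Pool.Agent.N40.FL.t_piv
    Pool.Agent.N40.FL.t_ech Pool.Agent.N954.FL.t_lift Pool.Agent.N56.FL.t_span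
  exact resolvable (fun S _ v hv => models Pool.Agent.N531.FL.t_sat hrank
    Pool.Agent.N102.FL.t_form Pool.Agent.N40.FL.t_fam Pool.Agent.N40.FL.t_dim hB hC S v hv)
    A S hS hA

end Pool.Agent.Results.MP_b525bf_ag.FrobeniusLevels
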