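import Pool.Agent.N840.SK.Top

/-!
MP_b525bf_ag: resolution of the quotients of the spaces of `n × m`-matrices by all group schemes
between the Frobenius kernels of the derived group of a parabolic subgroup `P` of `GL_n` and of
`P`, for example by the Frobenius kernels of `SL_n`.
-/

set_option autoImplicit false

open AlgebraicGeometry CategoryTheory MvPolynomial Pool.Agent.H920R2

universe u

namespace Pool.Agent.Results.MP_b525bf_ag.ParabolicCharacterKernels

variable (k : Type u) [Field k] (n m : ℕ) {s : ℕ}

/-- The homomorphism `X i j ↦ ∑ l, G i l * X l j` from the coordinate ring `k[X]` of the space of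
`n × m`-matrices to the polynomial ring `k[X][G]`, where `X` and `G` are the generic
`n × m`-matrix and the generic `n × n`-matrix: left multiplication by `G`. -/
noncomputable def coaction : MvPolynomial (Fin n × Fin m) k →ₐ[k]
    MvPolynomial (Fin n × Fin n) (MvPolynomial (Fin n × Fin m) k) :=
  aeval fun u => ∑ l, X (u.1, l) * C (X (l, u.2))

/-- The determinant of the diagonal block of the generic matrix `G` with the rows and columns of
the level `b`. -/
noncomputable def blockDet (lv : Fin n → Fin s) (b : Fin s) :
    MvPolynomial (Fin n × Fin n) (MvPolynomial (Fin n × Fin m) k) :=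
  (Matrix.of fun i j : {i // lv i = b} => X (i.1, j.1)).det

/-- The ideal of `k[X][G]` generated by the `G i j ^ q - δ i j`, by the `G i j` with
`lv j < lv i`, and by the `∏ b, det (G_b) ^ (u b) - 1` with `u ∈ S`, where `G_b` is the diagonal
block of level `b`. If `q = p ^ r`, it defines the closed subscheme `H × M_{n,m}` of
`M_n × M_{n,m}`, where `H` is the group scheme of the matrices `g` in the `r`-th Frobenius kernel
of the parabolic subgroup `P = {g | g i j = 0 if lv j < lv i}` of `GL_n` with
`∏ b, det (g_b) ^ (u b) = 1` for all `u ∈ S`. -/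
noncomputable def kernelIdeal (lv : Fin n → Fin s) (q : ℕ) (S : Set (Fin s → ℕ)) :
    Ideal (MvPolynomial (Fin n × Fin n) (MvPolynomial (Fin n × Fin m) k)) :=
  Ideal.span (((Set.range fun u => X u ^ q - if u.1 = u.2 then 1 else 0) ∪
    ((fun u => X u) '' {u | lv u.2 < lv u.1})) ∪
    {f | ∃ u ∈ S, f = ∏ b, blockDet k n m lv b ^ u b - 1})

/-- The algebra of the functions on the space of `n × m`-matrices which are invariant under the
left multiplications by `H`, if `q = p ^ r`. -/
noncomputable def invariants (lv : Fin n → Fin s) (q : ℕ) (S : Set (Fin s → ℕ)) :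
    Subalgebra k (MvPolynomial (Fin n × Fin m) k) where
  carrier := {f | coaction k n m f - C f ∈ kernelIdeal k n m lv q S}
  mul_mem' := (Pool.Agent.N840.SK.InvS k n m lv q S).mul_mem'
  add_mem' := (Pool.Agent.N840.SK.InvS k n m lv q S).add_mem'
  algebraMap_mem' := (Pool.Agent.N840.SK.InvS k n m lv q S).algebraMap_mem'

/-- The quotient of the space of `n × m`-matrices by `H`, if `q = p ^ r`. -/
noncomputable def quot (lv : Fin n → Fin s) (q : ℕ) (S : Set (Fin s → ℕ)) : Scheme.{u} :=
  Spec (CommRingCat.of (invariants k n m lv q S))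

/-- The structure morphism of the quotient. -/
noncomputable def quotStr (lv : Fin n → Fin s) (q : ℕ) (S : Set (Fin s → ℕ)) :
    quot k n m lv q S ⟶ Spec (CommRingCat.of k) :=
  Spec.map (CommRingCat.ofHom (algebraMap k (invariants k n m lv q S)))

/-- Let `k` be a field of characteristic `p`, let `n ≤ m`, and let `lv` be a map from the set of
the indices of the rows onto `{0, ..., s - 1}`. Let `P` be the parabolic subgroup of `GL_n` of the
matrices `g` with `g i j = 0` if `lv j < lv i`, with the diagonal blocks `g_b`, `b < s`. Let `H` be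
the group scheme of the matrices `g` in the `r`-th Frobenius kernel of `P` with
`∏ b, det (g_b) ^ (u b) = 1` for all `u ∈ S`, where `S` is any set of exponents. The quotient of
the space of `n × m`-matrices over `k` by `H`, acting by left multiplication, is a variety and has
a resolution of singularities. If `s = 1` and `S = {1}`, then `H` is the `r`-th Frobenius kernel
of `SL_n`. -/
theorem result (p : ℕ) [Fact p.Prime] (k : Type u) [Field k] [CharP k p] (n m : ℕ)
    (hnm : n ≤ m) (r s : ℕ) (lv : Fin n → Fin s) (hlv : Function.Surjective lv)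
    (S : Set (Fin s → ℕ)) :
    IsVariety (quotStr k n m lv (p ^ r) S) ∧
    ∃ (Y : Scheme.{u}) (π : Y ⟶ quot k n m lv (p ^ r) S),
      AlgebraicGeometry.IsIntegral Y ∧ AlgebraicGeometry.IsProper π ∧
      AlgebraicGeometry.Smooth (π ≫ quotStr k n m lv (p ^ r) S) ∧
      ∃ U : (quot k n m lv (p ^ r) S).Opens,
        Dense (U : Set (quot k n m lv (p ^ r) S)) ∧ IsIso (π ∣_ U) := by
  have hp : p.Prime := Fact.out
  have h1 : Algebra.FiniteType k (Pool.Agent.N840.SK.InvS k n m lv (p ^ r) S) :=
    Pool.Agent.Y212.Fk.finiteType_of_pow _ (pow_pos hp.pos r) fun v =>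
      Pool.Agent.N840.SK.mem_InvS.2 (Pool.Agent.N840.SK.pow_semi v)
  have h2 : IsVariety (X := Spec (CommRingCat.of
      (Pool.Agent.N840.SK.InvS k n m lv (p ^ r) S)))
      (Spec.map (CommRingCat.ofHom
        (algebraMap k (Pool.Agent.N840.SK.InvS k n m lv (p ^ r) S)))) :=
    isVariety_spec
  exact ⟨h2, Pool.Agent.N840.SK.res hnm hlv⟩

end Pool.Agent.Results.MP_b525bf_ag.ParabolicCharacterKernels
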