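import Pool.Agent.N429.RS.Fin

/-!
MP_b525bf_ag: resolution of the quotients of the spaces of `n × m`-matrices by the Frobenius
kernels of the unipotent radicals of the parabolic subgroups of `GL_n`, of the group of unitriangular
matrices, and by all infinitesimal group schemes of block upper triangular matrices `g` with
`g i j ^ (p ^ r i j) = δ i j`, where the heights `r i j` do not decrease along the rows.

The starting result `ParabolicKernels` is the case of heights which are constant along the rows
(`g` in the parabolic subgroup). Its blowup in the minors of the rows of level at least `L` does not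
suffice here, and is not normal in general: its charts need not contain the powers
`T i l ^ (p ^ r i l)` of the entries of the block triangular factor of the generic matrix `X = T U`,
although these are integral over them. New: the mixed minors, of the row `i` and all rows
of level greater than the level of `l`, are semi-invariant after the `p ^ r i l`-th power
(`Pool.Agent.N429.RS.semi_mx`, it uses the monotonicity of the heights), in a chart their quotients
by the pivot minors are the entries `T i l` (`mK_div`, `NU_det`), and the blowup in suitable products of
all these has affine spaces as charts (`hasResolutionM`).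
-/

set_option autoImplicit false

open AlgebraicGeometry CategoryTheory MvPolynomial Pool.Agent.H920R2

universe u

namespace Pool.Agent.Results.MP_b525bf_ag.UnipotentKernels

variable (k : Type u) [Field k] (n m : ℕ)

/-- The homomorphism `X i j ↦ ∑ l, G i l * X l j` from the coordinate ring `k[X]` of the space of
`n × m`-matrices to the polynomial ring `k[X][G]`, where `X` and `G` are the generic
`n × m`-matrix and the generic `n × n`-matrix: left multiplication by `G`. -/
noncomputable def coaction : MvPolynomial (Fin n × Fin m) k →ₐ[k]
    MvPolynomial (Fin n × Fin n) (MvPolynomial (Fin n × Fin m) k) :=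
  aeval fun u => ∑ l, X (u.1, l) * C (X (l, u.2))

/-- The ideal of `k[X][G]` generated by the `G i j ^ q i j - δ i j` and by the `G i j` with
`lv j < lv i`. If `q i j = p ^ r i j`, it defines the closed subscheme `H × M_{n,m}` of
`M_n × M_{n,m}`, where `H = H(lv, r)` is the infinitesimal scheme of the matrices `g` in the
parabolic subgroup `P = {g | g i j = 0 if lv j < lv i}` of `GL_n` with `g i j ^ (p ^ r i j) = δ i j`. -/
noncomputable def kernelIdeal (lv : Fin n → ℕ) (q : Fin n → Fin n → ℕ) :
    Ideal (MvPolynomial (Fin n × Fin n) (MvPolynomial (Fin n × Fin m) k)) :=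
  Ideal.span ((Set.range fun u => X u ^ q u.1 u.2 - if u.1 = u.2 then 1 else 0) ∪
    ((fun u => X u) '' {u | lv u.2 < lv u.1}))

/-- The algebra of the functions on the space of `n × m`-matrices which are invariant under the
left multiplications by `H(lv, r)`, if `q i j = p ^ r i j`. -/
noncomputable def invariants (lv : Fin n → ℕ) (q : Fin n → Fin n → ℕ) :
    Subalgebra k (MvPolynomial (Fin n × Fin m) k) where
  carrier := {f | coaction k n m f - C f ∈ kernelIdeal k n m lv q}
  mul_mem' := (Pool.Agent.N429.RS.InvM k n m lv q).mul_mem'
  add_mem' := (Pool.Agent.N429.RS.InvM k n m lv q).add_mem'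
  algebraMap_mem' := (Pool.Agent.N429.RS.InvM k n m lv q).algebraMap_mem'

/-- The quotient of the space of `n × m`-matrices by `H(lv, r)`, if `q i j = p ^ r i j`. -/
noncomputable def quot (lv : Fin n → ℕ) (q : Fin n → Fin n → ℕ) : Scheme.{u} :=
  Spec (CommRingCat.of (invariants k n m lv q))

/-- The structure morphism of the quotient. -/
noncomputable def quotStr (lv : Fin n → ℕ) (q : Fin n → Fin n → ℕ) :
    quot k n m lv q ⟶ Spec (CommRingCat.of k) :=
  Spec.map (CommRingCat.ofHom (algebraMap k (invariants k n m lv q)))

/-- Let `k` be a field of characteristic `p`, let `n ≤ m`, let `lv : Fin n → ℕ` be arbitrary, and let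
`r i j`, `lv i ≤ lv j`, be natural numbers with `r i j ≤ r i l` if `lv i ≤ lv j ≤ lv l`. The quotient
of the space of `n × m`-matrices over `k` by the infinitesimal group scheme `H` of the matrices `g`
with `g i j = 0` if `lv j < lv i` and `g i j ^ (p ^ r i j) = δ i j`, acting by left
multiplication, is a variety and has a resolution of singularities.

Examples: `r i j = s` if `lv i < lv j` and `r i j = 0` if `lv i = lv j`, when `H` is the `s`-th
Frobenius kernel of the unipotent radical of the parabolic subgroup
`{g | g i j = 0 if lv j < lv i}`; in particular (`lv` injective) the `s`-th Frobenius kernel of the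
group of unitriangular matrices. -/
theorem result (p : ℕ) [Fact p.Prime] (k : Type u) [Field k] [CharP k p] (n m : ℕ)
    (hnm : n ≤ m) (lv : Fin n → ℕ) (r : Fin n → Fin n → ℕ)
    (h : ∀ i j l, lv i ≤ lv j → lv j ≤ lv l → r i j ≤ r i l) :
    IsVariety (quotStr k n m lv fun i j => p ^ r i j) ∧
    ∃ (Y : Scheme.{u}) (π : Y ⟶ quot k n m lv fun i j => p ^ r i j),
      AlgebraicGeometry.IsIntegral Y ∧ AlgebraicGeometry.IsProper π ∧
      AlgebraicGeometry.Smooth (π ≫ quotStr k n m lv fun i j => p ^ r i j) ∧
      ∃ U : (quot k n m lv fun i j => p ^ r i j).Opens,
        Dense (U : Set (quot k n m lv fun i j => p ^ r i j)) ∧ IsIso (π ∣_ U) := by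
  obtain ⟨h1, h3⟩ := Pool.Agent.N429.RS.final (k := k) (m := m) lv (p := p) r h hnm
  have h2 : IsVariety (X := Spec (CommRingCat.of
      (Pool.Agent.N429.RS.InvM k n m lv fun i j => p ^ r i j)))
      (Spec.map (CommRingCat.ofHom
        (algebraMap k (Pool.Agent.N429.RS.InvM k n m lv fun i j => p ^ r i j)))) :=
    isVariety_spec
  exact ⟨h2, h3⟩

end Pool.Agent.Results.MP_b525bf_ag.UnipotentKernels
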